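import Mathlib
import Pool.Agent.H.MP_60dc17_co.B

set_option autoImplicit false

namespace Pool.Agent.Results.MP_60dc17_co.No

open Pool.Agent.H.MP_60dc17_co

theorem result : ∀ n : ℕ, 39 ≤ n → ¬ ∃ F : Set (Set E), Tiling F ∧
    (∀ A ∈ F, ∃ s, IsOmino n s ∧ Congr (reg s) A) ∧
    ∀ s, IsOmino n s → ∃ A ∈ F, Congr (reg s) A := by
  rintro n hn ⟨F, hF, h1, h2⟩
  obtain ⟨t, ht, h⟩ := main hn
  obtain ⟨A, hA, h3⟩ := h2 t ht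
  refine h F hF.2.2.1 hF.2.2.2 (fun B hB => ?_) A hA h3
  obtain ⟨s, hs, h4⟩ := h1 B hB
  exact ⟨s, hs.1, hs.2.1, h4⟩

end Pool.Agent.Results.MP_60dc17_co.No
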